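import Pool.Agent.MDG.Stmts

/-!
Row BLB of the squad MDG (MP_3faef8_co).
-/

set_option autoImplicit false

open Finset Pool.Agent.HEC

namespace Pool.Agent.MDG.H90

open Classical in
theorem e2_eq {V : Type} [Fintype V] (F : SimpleGraph V) :
    (e2 F : ℝ) = ∑ u, ∑ v, (if F.Adj u v then (1 : ℝ) else 0) := by
  unfold e2 cnt
  rw [Finset.card_filter]
  push_cast
  rw [← Finset.univ_product_univ, Finset.sum_product]

open Classical in
theorem half_sum {V : Type} [Fintype V] (F : SimpleGraph V) (t : V → Bool)
    (hb : ∀ u v, F.Adj u v → t u ≠ t v) :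
    (∑ u, if t u = true then (∑ v, if F.Adj u v then (1 : ℝ) else 0) else 0) = (e2 F : ℝ) / 2 ∧
    (∑ u, if t u = true then 0 else (∑ v, if F.Adj u v then (1 : ℝ) else 0))
      = (e2 F : ℝ) / 2 := by
  have hsum : (∑ u, if t u = true then (∑ v, if F.Adj u v then (1 : ℝ) else 0) else 0)
      + (∑ u, if t u = true then 0 else (∑ v, if F.Adj u v then (1 : ℝ) else 0))
      = (e2 F : ℝ) := by
    rw [e2_eq, ← Finset.sum_add_distrib]
    refine Finset.sum_congr rfl (fun u _ => ?_)
    by_cases h : t u = true
    · simp [h]
    · simp [h]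
  have heq : (∑ u, if t u = true then (∑ v, if F.Adj u v then (1 : ℝ) else 0) else 0)
      = (∑ u, if t u = true then 0 else (∑ v, if F.Adj u v then (1 : ℝ) else 0)) := by
    have h1 : (∑ u, if t u = true then (∑ v, if F.Adj u v then (1 : ℝ) else 0) else 0)
        = ∑ u, ∑ v, (if t u = true then (if F.Adj u v then (1 : ℝ) else 0) else 0) := by
      refine Finset.sum_congr rfl (fun u _ => ?_)
      by_cases h : t u = true
      · simp [h]
      · simp [h]
    have h2 : (∑ u, if t u = true then 0 else (∑ v, if F.Adj u v then (1 : ℝ) else 0))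
        = ∑ u, ∑ v, (if t u = true then 0 else (if F.Adj u v then (1 : ℝ) else 0)) := by
      refine Finset.sum_congr rfl (fun u _ => ?_)
      by_cases h : t u = true
      · simp [h]
      · simp [h]
    rw [h1, h2, Finset.sum_comm]
    refine Finset.sum_congr rfl (fun u _ => Finset.sum_congr rfl (fun v _ => ?_))
    by_cases hadj : F.Adj u v
    · have h3 := hb u v hadj
      have hadj' : F.Adj v u := hadj.symm
      simp only [hadj, hadj', if_true]
      cases h6 : t u
      · cases h7 : t v
        · exact absurd (by rw [h6, h7]) h3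
        · simp
      · cases h7 : t v
        · simp
        · exact absurd (by rw [h6, h7]) h3
    · have hadj' : ¬ F.Adj v u := fun h => hadj h.symm
      simp only [hadj, hadj', if_false]
      simp
  constructor
  · linarith
  · linarith

open Classical in
theorem cnt_le {α β : Type} [Fintype α] [Fintype β] (p : α → Prop) (q : β → Prop) (f : β → α)
    (h : ∀ a, p a → ∃ b, q b ∧ f b = a) : cnt p ≤ cnt q := by
  unfold cnt
  refine le_trans (Finset.card_le_card (t := (univ.filter q).image f) ?_) Finset.card_image_le
  intro a ha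
  obtain ⟨b, hb, rfl⟩ := h a (Finset.mem_filter.mp ha).2
  exact Finset.mem_image.mpr ⟨b, Finset.mem_filter.mpr ⟨Finset.mem_univ _, hb⟩, rfl⟩

theorem cut_sub {V : Type} [Fintype V] (H : SimpleGraph V) (U : Finset V) (W : Finset U) :
    cut (res H U) (W.map (Function.Embedding.subtype _)) ≤
      cut (SimpleGraph.comap (Subtype.val : U → V) H) W := by
  unfold cut
  refine cnt_le _ _ (fun q : U × U => ((q.1 : V), (q.2 : V))) (fun p hp => ?_)
  obtain ⟨h1, h2, h3, h4, h5⟩ := hp
  refine ⟨(⟨p.1, h4⟩, ⟨p.2, h5⟩), ⟨?_, ?_, h3⟩, rfl⟩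
  · obtain ⟨a, ha, hae⟩ := Finset.mem_map.mp h1
    have : a = ⟨p.1, h4⟩ := Subtype.ext hae
    rw [← this]
    exact ha
  · intro hmem
    exact h2 (Finset.mem_map.mpr ⟨⟨p.2, h5⟩, hmem, rfl⟩)

open Classical in
theorem blb (hT : T2rStmt) : BlbStmt := by
  intro V _ H t U L eta M r sig z0 z1 hb hL hcut heta hM hm h0 h1
  have hbF : ∀ u v, (res H U).Adj u v → t u ≠ t v := fun u v h => hb u v h.1
  obtain ⟨hh1, hh2⟩ := half_sum (res H U) t hbF
  have hm0 : (0 : ℝ) < (e2 (res H U) : ℝ) := by exact_mod_cast hm
  set m : ℝ := (e2 (res H U) : ℝ) with hmdef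
  set S : V → ℝ := fun u => ∑ v, if (res H U).Adj u v then (1 : ℝ) else 0 with hS
  set be : V → V → ℝ := fun u v => if (res H U).Adj u v then 2 * sig / m else 0 with hbe
  have hbd : ∀ v, bd be v = 2 * sig / m * S v := by
    intro v
    unfold bd
    rw [hbe, hS, Finset.mul_sum]
    refine Finset.sum_congr rfl (fun w _ => ?_)
    by_cases h : (res H U).Adj v w
    · simp only [if_pos h, mul_one]
    · simp only [if_neg h, mul_zero]
  have hS0 : ∀ v, v ∉ U → S v = 0 := by
    intro v hv
    rw [hS]
    refine Finset.sum_eq_zero (fun w _ => ?_)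
    rw [if_neg (fun h => hv h.2.1)]
  have hT1 : ∑ v ∈ U, (if t v = true then bd be v else 0) = sig := by
    have h2 : ∑ v ∈ U, (if t v = true then bd be v else 0)
        = ∑ v, (if t v = true then bd be v else 0) := by
      refine Finset.sum_subset (Finset.subset_univ _) (fun v _ hv => ?_)
      rw [hbd, hS0 v hv]
      simp
    rw [h2]
    have h3 : ∑ v, (if t v = true then bd be v else 0)
        = 2 * sig / m * ∑ v, (if t v = true then S v else 0) := by
      rw [Finset.mul_sum]
      refine Finset.sum_congr rfl (fun v _ => ?_)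
      rw [hbd]
      by_cases h : t v = true
      · simp only [if_pos h]
      · simp only [if_neg h, mul_zero]
    rw [h3, hS]
    simp only
    rw [hh1]
    field_simp
  have hT2 : ∑ v ∈ U, (if t v = true then 0 else bd be v) = sig := by
    have h2 : ∑ v ∈ U, (if t v = true then 0 else bd be v)
        = ∑ v, (if t v = true then 0 else bd be v) := by
      refine Finset.sum_subset (Finset.subset_univ _) (fun v _ hv => ?_)
      rw [hbd, hS0 v hv]
      simp
    rw [h2]
    have h3 : ∑ v, (if t v = true then 0 else bd be v)
        = 2 * sig / m * ∑ v, (if t v = true then 0 else S v) := by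
      rw [Finset.mul_sum]
      refine Finset.sum_congr rfl (fun v _ => ?_)
      rw [hbd]
      by_cases h : t v = true
      · simp only [if_pos h, mul_zero]
      · simp only [if_neg h]
    rw [h3, hS]
    simp only
    rw [hh2]
    field_simp
  obtain ⟨z', x', hx', hz', htot⟩ := hT U (SimpleGraph.comap (Subtype.val : U → V) H)
    (fun a => t a.1) L eta M (fun a => r a.1 - bd be a.1) z0 z1
    (fun u v h => hb u.1 v.1 h) hL
    (by
      intro W hW hWu
      refine le_trans (hcut (W.map (Function.Embedding.subtype _)) ?_ ?_ ?_) ?_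
      · intro v hv
        obtain ⟨a, _, rfl⟩ := Finset.mem_map.mp hv
        exact a.2
      · exact hW.map
      · intro hEq
        refine hWu (Finset.eq_univ_iff_forall.mpr (fun a => ?_))
        have h2 : (a : V) ∈ W.map (Function.Embedding.subtype _) := by
          rw [hEq]
          exact a.2
        obtain ⟨b, hb1, hb2⟩ := Finset.mem_map.mp h2
        have : b = a := Subtype.ext hb2
        rw [← this]
        exact hb1
      · exact_mod_cast cut_sub H U W)
    heta hM
    (by
      have h2 : ∑ a : U, (if t a.1 = true then r a.1 - bd be a.1 else 0)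
          = ∑ v ∈ U, (if t v = true then r v - bd be v else 0) :=
        Finset.sum_coe_sort U (fun v => if t v = true then r v - bd be v else 0)
      rw [h2, ← h0, ← hT1, ← Finset.sum_sub_distrib]
      refine Finset.sum_congr rfl (fun v _ => ?_)
      by_cases h : t v = true
      · simp only [if_pos h]
      · simp only [if_neg h, sub_zero])
    (by
      have h2 : ∑ a : U, (if t a.1 = true then 0 else r a.1 - bd be a.1)
          = ∑ v ∈ U, (if t v = true then 0 else r v - bd be v) :=
        Finset.sum_coe_sort U (fun v => if t v = true then 0 else r v - bd be v)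
      rw [h2, ← h1, ← hT2, ← Finset.sum_sub_distrib]
      refine Finset.sum_congr rfl (fun v _ => ?_)
      by_cases h : t v = true
      · simp only [if_pos h, sub_zero]
      · simp only [if_neg h])
  set xe : V → V → ℝ := fun u v =>
    if h : u ∈ U ∧ v ∈ U then x' ⟨u, h.1⟩ ⟨v, h.2⟩ else 0 with hxe
  have hbe_in : ∀ v (hv : v ∈ U), bd xe v = bd x' ⟨v, hv⟩ := by
    intro v hv
    unfold bd
    have h2 : ∑ w, xe v w = ∑ w ∈ U, xe v w := by
      symm
      refine Finset.sum_subset (Finset.subset_univ _) (fun w _ hw => ?_)
      rw [hxe]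
      simp only
      rw [dif_neg (fun h => hw h.2)]
    rw [h2, ← Finset.sum_coe_sort U (fun w => xe v w)]
    refine Finset.sum_congr rfl (fun w _ => ?_)
    rw [hxe]
    simp only
    rw [dif_pos ⟨hv, w.2⟩]
  have hbd_add : ∀ v, bd (fun u w => be u w + xe u w) v = bd be v + bd xe v := by
    intro v
    unfold bd
    rw [← Finset.sum_add_distrib]
  have hMe : 0 ≤ 2 * (M : ℝ) * eta := by
    have h2 : 0 < eta := by
      by_contra h3
      push Not at h3
      nlinarith
    positivity
  refine ⟨fun v => if h : v ∈ U then z' ⟨v, h⟩ else 0, fun u v => be u v + xe u v, ?_, ?_, ?_⟩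
  · refine ⟨?_, ?_, ?_⟩
    · intro u v
      have e1 : be u v = be v u := by
        rw [hbe]
        simp only
        by_cases h : (res H U).Adj u v
        · rw [if_pos h, if_pos h.symm]
        · rw [if_neg h, if_neg (fun h' => h h'.symm)]
      have e2' : xe u v = xe v u := by
        rw [hxe]
        simp only
        by_cases h : u ∈ U ∧ v ∈ U
        · rw [dif_pos h, dif_pos ⟨h.2, h.1⟩]
          exact hx'.symm _ _
        · rw [dif_neg h, dif_neg (fun h' => h ⟨h'.2, h'.1⟩)]
      simp only [e1, e2']
    · intro u v huv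
      have e1 : be u v = 0 := by
        rw [hbe]
        simp only
        rw [if_neg huv]
      have e2' : xe u v = 0 := by
        rw [hxe]
        simp only
        by_cases h : u ∈ U ∧ v ∈ U
        · rw [dif_pos h]
          refine hx'.supp _ _ (fun hadj => huv ⟨hadj, h.1, h.2⟩)
        · rw [dif_neg h]
      simp only [e1, e2', add_zero]
    · intro u v
      have e1 : |be u v| ≤ 2 * |sig| / m := by
        rw [hbe]
        simp only
        by_cases h : (res H U).Adj u v
        · rw [if_pos h, abs_div, abs_mul, abs_of_pos hm0]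
          simp
        · rw [if_neg h, abs_zero]
          positivity
      have e2' : |xe u v| ≤ 2 * M * eta := by
        rw [hxe]
        simp only
        by_cases h : u ∈ U ∧ v ∈ U
        · rw [dif_pos h]
          exact hx'.rng _ _
        · rw [dif_neg h, abs_zero]
          exact hMe
      refine le_trans (abs_add_le _ _) ?_
      linarith
  · intro v hv
    simp only [dif_pos hv]
    rw [hbd_add, hbe_in v hv, hz' ⟨v, hv⟩]
    ring
  · have h2 : ∑ v ∈ U, (if t v = true then bd (fun u w => be u w + xe u w) v else 0)
        = ∑ v ∈ U, (if t v = true then bd be v else 0)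
          + ∑ v ∈ U, (if t v = true then bd xe v else 0) := by
      rw [← Finset.sum_add_distrib]
      refine Finset.sum_congr rfl (fun v _ => ?_)
      rw [hbd_add]
      by_cases h : t v = true
      · simp only [if_pos h]
      · simp only [if_neg h, add_zero]
    have h3 : ∑ v ∈ U, (if t v = true then bd xe v else 0) = 0 := by
      refine Eq.trans ?_ htot
      rw [← Finset.sum_coe_sort U (fun v => if t v = true then bd xe v else 0)]
      refine Finset.sum_congr rfl (fun a _ => ?_)
      rw [hbe_in a.1 a.2]
    rw [h2, h3, hT1, add_zero]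

end Pool.Agent.MDG.H90
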